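import Pool.Agent.T2H53.HB.B5

set_option autoImplicit false

/-!
Central binomial sums with harmonic numbers of order two, modulo the cube of a prime.
-/

namespace Pool.Agent.Results.MP_021783_nt.CentralBinomialHarmonic

open Finset

/-- the harmonic number `H_n`, the sum of `1/j` over `1 ≤ j ≤ n` -/
def H (n : ℕ) : ℚ := ∑ j ∈ Icc 1 n, 1 / (j : ℚ)

/-- the harmonic number of order two, the sum of `1/j^2` over `1 ≤ j ≤ n` -/
def H2 (n : ℕ) : ℚ := ∑ j ∈ Icc 1 n, 1 / (j : ℚ) ^ 2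

/-- `S_m(p)`, the sum of `C(2k,k) H_k^{(2)} / (k m^k)` over `1 ≤ k ≤ p - 1` -/
def S (m p : ℕ) : ℚ := ∑ k ∈ Icc 1 (p - 1), (Nat.choose (2 * k) k : ℚ) * H2 k / (k * (m : ℚ) ^ k)

/-- `W_p = H_{p-1} / p^2` -/
def W (p : ℕ) : ℚ := H (p - 1) / (p : ℚ) ^ 2

/-- `x` is `p`-integral: `p` does not divide the denominator of `x` in lowest terms -/
def PInt (p : ℕ) (x : ℚ) : Prop := ¬ p ∣ x.den

/-- `a ≡ b (mod p^k)` for `p`-integral rational numbers `a`, `b` -/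
def Congr (p k : ℕ) (a b : ℚ) : Prop := PInt p a ∧ PInt p b ∧ PInt p ((a - b) / (p : ℚ) ^ k)

/-- For every prime `p > 3` all four congruences hold modulo `p^3`. -/
theorem result (p : ℕ) (hp : p.Prime) (h3 : 3 < p) :
    Congr p 3 (S 1 p) (2 / 3 * W p + 76 / 135 * (p : ℚ) ^ 2 * bernoulli (p - 5)) ∧
    Congr p 3 (S 2 p) (- (3 / 16) * W p + 479 / 1280 * (p : ℚ) ^ 2 * bernoulli (p - 5)) ∧
    Congr p 3 (S 3 p) (- (8 / 9) * W p + 268 / 1215 * (p : ℚ) ^ 2 * bernoulli (p - 5)) ∧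
    Congr p 3 (S 4 p) (- (3 / 2) * W p + 7 / 80 * (p : ℚ) ^ 2 * bernoulli (p - 5)) := by
  have : Fact p.Prime := ⟨hp⟩
  have hIcc : Icc 1 (p - 1) = Ico 1 p := by
    ext k; rw [mem_Icc, mem_Ico]; omega
  have hH2 : ∀ k, H2 k = Pool.Agent.T2H53.HB.h2 k := fun k => by
    unfold H2 Pool.Agent.T2H53.HB.h2
    exact sum_congr (by ext j; rw [mem_Icc, mem_Ico]; omega) fun _ _ => rfl
  have hS : ∀ m, S m p = ∑ k ∈ Ico 1 p, Pool.Agent.T2H53.HB.u k * Pool.Agent.T2H53.HB.h2 k / (m : ℚ) ^ k := by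
    intro m
    unfold S
    rw [hIcc]
    refine sum_congr rfl fun k _ => ?_
    rw [hH2]
    unfold Pool.Agent.T2H53.HB.u Nat.centralBinom
    rw [div_mul_eq_mul_div, div_div]
  have hW : W p = Pool.Agent.T2H53.HB.HH p 1 / (p : ℚ) ^ 2 := by
    unfold W H Pool.Agent.T2H53.HB.HH
    rw [hIcc]
    simp only [pow_one]
  have hden : ∀ x : ℚ, x ∈ Pool.Agent.R439.PL.Zp p → PInt p x := by
    intro x hx
    have := Pool.Agent.R439.PL.den_of_I (p := p) (k := 0) (x := x) (Pool.Agent.R439.PL.I_zero_iff.2 hx)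
    rwa [pow_zero, div_one] at this
  have hSm : ∀ m : ℕ, 1 ≤ m → m ≤ 4 → S m p ∈ Pool.Agent.R439.PL.Zp p := by
    intro m hm1 hm4
    have hmU : Pool.Agent.R439.PL.U p (m : ℚ) := Pool.Agent.T2H53.HB.U_nat (by omega) (by
      have : p ≠ 4 := by rintro rfl; exact absurd hp (by norm_num)
      omega)
    rw [hS]
    refine sum_mem fun k hk => Pool.Agent.T2H53.HB.mem_div (mul_mem ?_ ?_) (hmU.pow k)
    · exact Pool.Agent.T2H53.HB.mem_div (Pool.Agent.R439.PL.nat_mem _) (Pool.Agent.T2H53.HB.U_r hk)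
    · refine sum_mem fun j hj => Pool.Agent.T2H53.HB.mem_div (one_mem _)
        ((Pool.Agent.T2H53.HB.U_r (p := p) ?_).pow 2)
      rw [mem_Ico] at hk hj ⊢
      omega
  have key : ∀ (m : ℕ) (b b' : ℚ), 1 ≤ m → m ≤ 4 → b' = b →
      Pool.Agent.R439.PL.I p 3 (∑ k ∈ Ico 1 p, Pool.Agent.T2H53.HB.u k * Pool.Agent.T2H53.HB.h2 k / (m : ℚ) ^ k - b) →
      Congr p 3 (S m p) b' := by
    intro m b b' hm1 hm4 hb h
    rw [← hS, ← hb] at h
    refine ⟨hden _ (hSm m hm1 hm4), hden _ ?_, Pool.Agent.R439.PL.den_of_I h⟩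
    have := sub_mem (hSm m hm1 hm4) h.mem
    rwa [sub_sub_cancel] at this
  obtain ⟨m1, m2, m3, m4⟩ := Pool.Agent.T2H53.HB.main (p := p) h3
  refine ⟨key 1 _ _ le_rfl (by norm_num) (by rw [hW]; ring) m1,
    key 2 _ _ (by norm_num) (by norm_num) (by rw [hW]; ring) m2,
    key 3 _ _ (by norm_num) (by norm_num) (by rw [hW]; ring) m3,
    key 4 _ _ (by norm_num) le_rfl (by rw [hW]; ring) m4⟩

end Pool.Agent.Results.MP_021783_nt.CentralBinomialHarmonic
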